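import Pool.Agent.Y825.WG.Many

/-! # Wiggin's conjecture fails for many `D`, and each time for many starting values

`F D` (file `Pool/Agent/Y825/WG/Count.lean`) is Wiggin's map, `Desc D n` says that `n` descends
below `D` under iteration of `F D`. -/

set_option autoImplicit false

namespace Pool.Agent.Results.MP_5317dd_nt.ManyFailures

open Pool.Agent.Y825.WG Filter

/-- 1. For 29 values of `D`, the least of which is `13`, the map `F D` has a cycle all of whose
members are at least `D`, so that Wiggin's conjecture fails for these `D`.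
2. If it fails for some `D ≥ 4` and a single starting value, then it fails for at least
`a N ^ (log 2 / (4 log D))` of the starting values `n ≤ N`, for some `a > 0` and all large `N`. -/
theorem result :
    (∀ D ∈ [13, 14, 15, 47, 55, 58, 62, 82, 83, 95, 104, 105, 121, 132, 133, 139, 143, 168, 198,
        216, 226, 307, 308, 346, 390, 700, 1023, 1235, 1277],
      ∃ n L : ℕ, 0 < L ∧ (F D)^[L] n = n ∧ ∀ k : ℕ, D ≤ (F D)^[k] n) ∧
    (∀ D : ℕ, 4 ≤ D → (∃ n : ℕ, 1 ≤ n ∧ ¬ Desc D n) →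
      ∃ a : ℝ, 0 < a ∧ ∀ᶠ N : ℕ in atTop, a * (N : ℝ) ^ (Real.log 2 / (4 * Real.log D)) ≤
        ({n : ℕ | 1 ≤ n ∧ n ≤ N ∧ ¬ Desc D n}.ncard : ℝ)) := by
  refine ⟨?_, fun D hD ⟨n, hn, h⟩ => many hD hn h⟩
  intro D hD
  have h1 : D ∈ cycles.map Prod.fst := hD
  obtain ⟨⟨D', c, L⟩, h2, rfl⟩ := List.mem_map.1 h1
  obtain ⟨h3, h4, h5, h6⟩ := cycles_chk _ h2
  obtain ⟨h7, h8⟩ := cycle h3 h6
  exact ⟨c, L, h3, h7, h8⟩

end Pool.Agent.Results.MP_5317dd_nt.ManyFailures
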